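import Pool.Agent.H11.QG0
import Pool.Agent.H11.QG1
import Pool.Agent.H11.QG2
import Pool.Agent.H11.QG3
import Pool.Agent.H11.QG4
import Pool.Agent.H11.QG5
import Pool.Agent.H11.QG6
import Pool.Agent.H11.QG7
import Pool.Agent.H11.QG8
import Pool.Agent.H11.QG9
import Pool.Agent.H11.QG10

set_option autoImplicit false

namespace Pool.Agent.Results.MP_28a92f_nt.Connected

open Pool.Agent.H11.QG

lemma all_reach : ∀ x < 1113643, ∃ k, f^[k] x = 0 :=
  good_end (part10 (part9 (part8 (part7 (part6 (part5 (part4 (part3 (part2 (part1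
    (part0 good_start)))))))))))

lemma cast_f (x : ℕ) :
    ((f x : ℕ) : ZMod 1113643) + 556822 = ((x : ZMod 1113643) + 556822) ^ 2 + 278411 := by
  unfold f
  rw [ZMod.natCast_mod]
  have h : (1113643 : ZMod 1113643) = 0 := by exact_mod_cast ZMod.natCast_self 1113643
  push_cast
  linear_combination (-(x : ZMod 1113643) - 278411) * h

lemma cast_iter (k : ℕ) : ∀ x : ℕ, ((f^[k] x : ℕ) : ZMod 1113643) + 556822 =
    (fun z : ZMod 1113643 => z ^ 2 + 278411)^[k] ((x : ZMod 1113643) + 556822) := by
  induction k with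
  | zero => intro x; rfl
  | succ k ih =>
    intro x
    rw [Function.iterate_succ_apply, Function.iterate_succ_apply, ih, cast_f]

lemma reach (z : ZMod 1113643) :
    ∃ k, (fun z : ZMod 1113643 => z ^ 2 + 278411)^[k] z = 556822 := by
  obtain ⟨k, hk⟩ := all_reach (z - 556822).val (ZMod.val_lt _)
  refine ⟨k, ?_⟩
  have := cast_iter k (z - 556822).val
  rw [hk, ZMod.natCast_zmod_val, sub_add_cancel] at this
  rw [← this]; simp

lemma fixed : (fun z : ZMod 1113643 => z ^ 2 + 278411) 556822 = 556822 := by
  have := cast_f 0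
  have h0 : f 0 = 0 := by decide
  rw [h0] at this
  simpa using this.symm

theorem result :
    ∃ (p : ℕ) (a : ZMod p), p.Prime ∧ 7 < p ∧
      (SimpleGraph.fromRel fun x y : ZMod p => y = x ^ 2 + a).Connected ∧
      ∃ c : ZMod p, Function.periodicPts (fun x : ZMod p => x ^ 2 + a) = {c} := by
  refine ⟨1113643, 278411, by norm_num, by norm_num, ?_, 556822, ?_⟩
  · have h : ∀ (k : ℕ) (z : ZMod 1113643),
        (SimpleGraph.fromRel fun x y : ZMod 1113643 => y = x ^ 2 + 278411).Reachable z
          ((fun z : ZMod 1113643 => z ^ 2 + 278411)^[k] z) := by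
      intro k
      induction k with
      | zero => intro z; rfl
      | succ k ih =>
        intro z
        rw [Function.iterate_succ_apply]
        refine SimpleGraph.Reachable.trans ?_ (ih _)
        by_cases e : z = z ^ 2 + 278411
        · rw [← e]
        · exact SimpleGraph.Adj.reachable ((SimpleGraph.fromRel_adj _ _ _).2 ⟨e, Or.inl rfl⟩)
    refine ⟨fun u v => ?_⟩
    obtain ⟨k, hk⟩ := reach u
    obtain ⟨l, hl⟩ := reach v
    have h1 := h k u
    have h2 := h l v
    rw [hk] at h1
    rw [hl] at h2
    exact h1.trans h2.symm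
  · have hf : Function.IsFixedPt (fun z : ZMod 1113643 => z ^ 2 + 278411) 556822 := fixed
    ext z
    rw [Set.mem_singleton_iff]
    constructor
    · rintro ⟨n, hn, hz⟩
      obtain ⟨k, hk⟩ := reach z
      have h1 := (hz.mul_const k).eq
      have e : n * k = (n * k - k) + k := by
        have : k ≤ n * k := Nat.le_mul_of_pos_left k hn
        omega
      rw [e, Function.iterate_add_apply, hk, (hf.iterate _).eq] at h1
      exact h1.symm
    · rintro rfl
      exact ⟨1, one_pos, hf⟩

end Pool.Agent.Results.MP_28a92f_nt.Connected
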